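import Pool.Agent.Lib.MP_eee7a8_ag.TB.Iface4

/-!
# TAGBR, module PUSHC: moving a point around an end of a separating translate of `e`
-/

set_option linter.unusedVariables false

open Matrix

namespace Pool.Agent.Lib.MP_eee7a8_ag.TB.C93

/-! ### The combinatorial core -/

open Classical in
/-- sign function of a strand with respect to the point with coordinates `x`, `Y` -/
noncomputable def sg {C : Type} (c : C) (t : C → ℝ) (x Y : ℝ) (s : C × C) : ℝ :=
  if s.1 = c then t s.2 - x else if s.2 = c then t s.1 - x else (t s.1 - x) * (t s.2 - x) + Y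

/-- strands separating two points -/
def SS {C : Type} (c : C) (t : C → ℝ) (E : C → C → Prop) (x Y x' Y' : ℝ) : Set (C × C) :=
  {s | E s.1 s.2 ∧ sg c t x Y s * sg c t x' Y' s < 0}

theorem SS_neg {C : Type} (c : C) (t : C → ℝ) (E : C → C → Prop) (x Y x' Y' : ℝ) :
    SS c (fun a => - t a) E (-x) Y (-x') Y' = SS c t E x Y x' Y' := by
  ext s
  have : sg c (fun a => - t a) (-x) Y s * sg c (fun a => - t a) (-x') Y' s =
      sg c t x Y s * sg c t x' Y' s := by
    unfold sg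
    split_ifs <;> ring
  simp only [SS, Set.mem_ofPred_eq, this]

theorem sg_left {C : Type} {c : C} {t : C → ℝ} {x Y : ℝ} {s : C × C} (h : s.1 = c) :
    sg c t x Y s = t s.2 - x := by
  unfold sg; rw [if_pos h]

theorem sg_right {C : Type} {c : C} {t : C → ℝ} {x Y : ℝ} {s : C × C} (h : s.1 ≠ c)
    (h' : s.2 = c) : sg c t x Y s = t s.1 - x := by
  unfold sg; rw [if_neg h, if_pos h']

theorem sg_gen {C : Type} {c : C} {t : C → ℝ} {x Y : ℝ} {s : C × C} (h : s.1 ≠ c)
    (h' : s.2 ≠ c) : sg c t x Y s = (t s.1 - x) * (t s.2 - x) + Y := by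
  unfold sg; rw [if_neg h, if_neg h']

/-- two points on different sides of a wall `d` are not both under a strand `(a, b)` -/
theorem not_both {a b x x' d : ℝ} (h1 : x < d) (h2 : d < x') (h : 0 ≤ (a - d) * (b - d))
    (ha : (a - x) * (b - x) ≤ 0) (hb : (a - x') * (b - x') ≤ 0)
    (hs : (a - x) * (b - x) < 0 ∨ (a - x') * (b - x') < 0) : False := by
  rcases le_total a b with hab | hab
  · have e1 : a ≤ x := by
      by_contra hh; push Not at hh
      nlinarith [mul_pos (sub_pos.2 hh) (sub_pos.2 (lt_of_lt_of_le hh hab))]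
    have e2 : x' ≤ b := by
      by_contra hh; push Not at hh
      nlinarith [mul_pos (sub_pos.2 hh) (sub_pos.2 (lt_of_le_of_lt hab hh))]
    nlinarith [mul_pos (show 0 < d - a by linarith) (show 0 < b - d by linarith)]
  · have e1 : b ≤ x := by
      by_contra hh; push Not at hh
      nlinarith [mul_pos (sub_pos.2 hh) (sub_pos.2 (lt_of_lt_of_le hh hab))]
    have e2 : x' ≤ a := by
      by_contra hh; push Not at hh
      nlinarith [mul_pos (sub_pos.2 hh) (sub_pos.2 (lt_of_le_of_lt hab hh))]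
    nlinarith [mul_pos (show 0 < d - b by linarith) (show 0 < a - d by linarith)]

theorem core {C : Type} (c d : C) (t : C → ℝ) (E : C → C → Prop) (γ : Equiv.Perm C) (n : ℝ)
    (hn : 0 < n) (hc : γ c = c) (ht : ∀ a, a ≠ c → t (γ a) = t a + n)
    (hE : ∀ a b, E a b → E (γ a) (γ b)) (hs : ∀ a b, E a b → E b a)
    (hv : ∀ a, E c a → ∃ k : ℤ, t a = t d + k * n)
    (hvd : ∀ k : ℤ, ∃ v, v ≠ c ∧ E c v ∧ t v = t d + k * n) (hcc : ¬ E c c)
    (hnc : ∀ a b v, a ≠ c → b ≠ c → v ≠ c → E a b → E c v → 0 ≤ (t a - t v) * (t b - t v))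
    (hd : d ≠ c) (hEd : E c d)
    (x x' Y Y' : ℝ) (hY : 0 ≤ Y) (hY' : 0 ≤ Y') (h1 : x < t d) (h2 : t d < x')
    (hfin : (SS c t E x Y x' Y').Finite) :
    (SS c t E x Y (x' - n) Y').Finite ∧
      (SS c t E x Y (x' - n) Y').ncard < (SS c t E x Y x' Y').ncard := by
  classical
  -- the injection
  set f : C × C → C × C := fun s => if s.1 = c ∨ s.2 = c then s else
    if sg c t x Y s < 0 then s else (γ s.1, γ s.2) with hf
  have γne : ∀ a, a ≠ c → γ a ≠ c := fun a ha h => ha (γ.injective (h.trans hc.symm))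
  -- vertical strands
  have vert : ∀ a, E c a → (t a - x) * (t a - (x' - n)) < 0 → (t a - x) * (t a - x') < 0 := by
    intro a ha h
    obtain ⟨k, hk⟩ := hv a ha
    rcases lt_trichotomy (t a) x with h3 | h3 | h3
    · exfalso
      have h4 : x' - n < t a := by
        by_contra hh; push Not at hh
        nlinarith [mul_nonneg (show 0 ≤ x - t a by linarith) (show 0 ≤ x' - n - t a by linarith)]
      have h5 : (k : ℝ) * n < 0 := by nlinarith
      have h6 : -n < (k : ℝ) * n := by nlinarith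
      have h7 : (k : ℝ) < 0 := by
        by_contra hh; push Not at hh
        nlinarith [mul_nonneg hh hn.le]
      have h8 : (-1 : ℝ) < k := by
        by_contra hh; push Not at hh
        nlinarith [mul_le_mul_of_nonneg_right hh hn.le]
      have h9 : k < 0 := by exact_mod_cast h7
      have h10 : (-1 : ℤ) < k := by exact_mod_cast h8
      omega
    · rw [h3] at h; simp at h
    · have h4 : t a < x' - n := by
        by_contra hh; push Not at hh
        nlinarith [mul_nonneg (show 0 ≤ t a - x by linarith) (show 0 ≤ t a - (x' - n) by linarith)]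
      nlinarith [mul_pos (show 0 < t a - x by linarith) (show 0 < x' - t a by linarith)]
  -- general strands, first type
  have gen1 : ∀ s : C × C, E s.1 s.2 → s.1 ≠ c → s.2 ≠ c → sg c t x Y s < 0 →
      0 < sg c t x' Y' s := by
    intro s hsE ha hb h
    rw [sg_gen ha hb] at h ⊢
    by_contra hh; push Not at hh
    exact not_both h1 h2 (hnc s.1 s.2 d ha hb hd hsE hEd) (by linarith) (by linarith)
      (Or.inl (by linarith))
  have sgγ : ∀ s : C × C, s.1 ≠ c → s.2 ≠ c →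
      sg c t x' Y' (γ s.1, γ s.2) = sg c t (x' - n) Y' s := by
    intro s ha hb
    rw [sg_gen (s := (γ s.1, γ s.2)) (γne _ ha) (γne _ hb), sg_gen ha hb]
    simp only [ht _ ha, ht _ hb]
    ring
  have gen2 : ∀ s : C × C, E s.1 s.2 → s.1 ≠ c → s.2 ≠ c → sg c t (x' - n) Y' s < 0 →
      0 < sg c t x Y (γ s.1, γ s.2) := by
    intro s hsE ha hb h
    rw [← sgγ s ha hb] at h
    have ha' := γne _ ha
    have hb' := γne _ hb
    rw [sg_gen (s := (γ s.1, γ s.2)) ha' hb'] at h ⊢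
    by_contra hh; push Not at hh
    exact not_both h1 h2 (hnc (γ s.1) (γ s.2) d ha' hb' hd (hE _ _ hsE) hEd) (by simp only at hh; linarith)
      (by simp only at h; linarith) (Or.inr (by simp only at h; linarith))
  have fv : ∀ s : C × C, (s.1 = c ∨ s.2 = c) → f s = s := by
    intro s h; simp only [hf]; rw [if_pos h]
  have fg1 : ∀ s : C × C, s.1 ≠ c → s.2 ≠ c → sg c t x Y s < 0 → f s = s := by
    intro s ha hb h; simp only [hf]; rw [if_neg (by tauto), if_pos h]
  have fg2 : ∀ s : C × C, s.1 ≠ c → s.2 ≠ c → ¬ sg c t x Y s < 0 → f s = (γ s.1, γ s.2) := by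
    intro s ha hb h; simp only [hf]; rw [if_neg (by tauto), if_neg h]
  have maps : ∀ s ∈ SS c t E x Y (x' - n) Y', f s ∈ SS c t E x Y x' Y' := by
    rintro s ⟨hsE, hsn⟩
    by_cases ha : s.1 = c
    · rw [fv s (Or.inl ha)]
      refine ⟨hsE, ?_⟩
      rw [sg_left ha, sg_left ha] at hsn ⊢
      exact vert s.2 (ha ▸ hsE) hsn
    by_cases hb : s.2 = c
    · rw [fv s (Or.inr hb)]
      refine ⟨hsE, ?_⟩
      rw [sg_right ha hb, sg_right ha hb] at hsn ⊢
      exact vert s.1 (hb ▸ hs _ _ hsE) hsn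
    by_cases h : sg c t x Y s < 0
    · rw [fg1 s ha hb h]
      exact ⟨hsE, mul_neg_of_neg_of_pos h (gen1 s hsE ha hb h)⟩
    · rw [fg2 s ha hb h]
      push Not at h
      have h3 : sg c t (x' - n) Y' s < 0 := by
        by_contra hh; push Not at hh
        exact absurd hsn (not_lt.2 (mul_nonneg h hh))
      refine ⟨hE _ _ hsE, ?_⟩
      rw [sgγ s ha hb]
      exact mul_neg_of_pos_of_neg (gen2 s hsE ha hb h3) h3
  have fc : ∀ s : C × C, ((f s).1 = c ↔ s.1 = c) ∧ ((f s).2 = c ↔ s.2 = c) := by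
    intro s
    by_cases hv' : s.1 = c ∨ s.2 = c
    · rw [fv s hv']; exact ⟨Iff.rfl, Iff.rfl⟩
    · push Not at hv'
      by_cases h : sg c t x Y s < 0
      · rw [fg1 s hv'.1 hv'.2 h]; exact ⟨Iff.rfl, Iff.rfl⟩
      · rw [fg2 s hv'.1 hv'.2 h]
        exact ⟨⟨fun e => absurd e (γne _ hv'.1), fun e => absurd e hv'.1⟩,
          ⟨fun e => absurd e (γne _ hv'.2), fun e => absurd e hv'.2⟩⟩
  have inj : Set.InjOn f (SS c t E x Y (x' - n) Y') := by
    rintro s ⟨hsE, hsn⟩ s' ⟨hsE', hsn'⟩ he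
    by_cases hv' : s.1 = c ∨ s.2 = c
    · have hv'' : s'.1 = c ∨ s'.2 = c := by
        rw [← (fc s).1, ← (fc s).2, he, (fc s').1, (fc s').2] at hv'; exact hv'
      rw [fv s hv', fv s' hv''] at he; exact he
    · have hv'' : ¬ (s'.1 = c ∨ s'.2 = c) := by
        rw [← (fc s).1, ← (fc s).2, he, (fc s').1, (fc s').2] at hv'; exact hv'
      push Not at hv' hv''
      by_cases h : sg c t x Y s < 0 <;> by_cases h' : sg c t x Y s' < 0
      · rw [fg1 s hv'.1 hv'.2 h, fg1 s' hv''.1 hv''.2 h'] at he; exact he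
      · exfalso
        rw [fg1 s hv'.1 hv'.2 h, fg2 s' hv''.1 hv''.2 h'] at he
        push Not at h'
        have h3 : sg c t (x' - n) Y' s' < 0 := by
          by_contra hh; push Not at hh
          exact absurd hsn' (not_lt.2 (mul_nonneg h' hh))
        have := gen2 s' hsE' hv''.1 hv''.2 h3
        rw [← he] at this
        linarith
      · exfalso
        rw [fg2 s hv'.1 hv'.2 h, fg1 s' hv''.1 hv''.2 h'] at he
        push Not at h
        have h3 : sg c t (x' - n) Y' s < 0 := by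
          by_contra hh; push Not at hh
          exact absurd hsn (not_lt.2 (mul_nonneg h hh))
        have := gen2 s hsE hv'.1 hv'.2 h3
        rw [he] at this
        linarith
      · rw [fg2 s hv'.1 hv'.2 h, fg2 s' hv''.1 hv''.2 h'] at he
        have e1 := congrArg Prod.fst he
        have e2 := congrArg Prod.snd he
        exact Prod.ext (γ.injective e1) (γ.injective e2)
  -- the missing vertical strand
  obtain ⟨k, hk1, hk2⟩ : ∃ k : ℤ, x' - n ≤ t d + k * n ∧ t d + k * n < x' := by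
    refine ⟨⌈(x' - t d) / n⌉ - 1, ?_, ?_⟩
    · have := Int.le_ceil ((x' - t d) / n)
      rw [div_le_iff₀ hn] at this
      push_cast; nlinarith
    · have := Int.ceil_lt_add_one ((x' - t d) / n)
      rw [← sub_lt_iff_lt_add, lt_div_iff₀ hn] at this
      push_cast; nlinarith
  have hk0 : 0 ≤ k := by
    by_contra hh; push Not at hh
    have : (k : ℝ) ≤ -1 := by exact_mod_cast (by omega : k ≤ -1)
    nlinarith [mul_le_mul_of_nonneg_right this hn.le]
  obtain ⟨v, hvc, hvE, hvt⟩ := hvd k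
  have hvx : x < t v := by
    rw [hvt]
    have : (0 : ℝ) ≤ k := by exact_mod_cast hk0
    nlinarith [mul_nonneg this hn.le]
  have hmem : (c, v) ∈ SS c t E x Y x' Y' := by
    refine ⟨hvE, ?_⟩
    rw [sg_left (s := (c, v)) rfl, sg_left (s := (c, v)) rfl]
    simp only
    nlinarith [mul_pos (sub_pos.2 hvx) (show 0 < x' - t v by rw [hvt]; linarith)]
  have hnot : (c, v) ∉ f '' SS c t E x Y (x' - n) Y' := by
    rintro ⟨s, ⟨hsE, hsn⟩, he⟩
    have h3 : s.1 = c := by rw [← (fc s).1, he]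
    rw [fv s (Or.inl h3)] at he
    subst he
    rw [sg_left (s := (c, v)) rfl, sg_left (s := (c, v)) rfl] at hsn
    simp only at hsn
    have h4 : x' - n ≤ t v := by rw [hvt]; exact hk1
    nlinarith [mul_nonneg (show 0 ≤ t v - x by linarith) (show 0 ≤ t v - (x' - n) by linarith)]
  have hsub : f '' SS c t E x Y (x' - n) Y' ⊆ SS c t E x Y x' Y' := by
    rintro _ ⟨s, hs', rfl⟩; exact maps s hs'
  have hss : f '' SS c t E x Y (x' - n) Y' ⊂ SS c t E x Y x' Y' :=
    ⟨hsub, fun h => hnot (h hmem)⟩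
  refine ⟨Set.Finite.of_finite_image (hfin.subset hsub) inj, ?_⟩
  rw [← inj.ncard_image]
  exact Set.ncard_lt_ncard hss hfin

/-! ### Coordinates at the cusp `h • infty` -/

theorem y_pos {a : Cusp} (h : a ≠ infty) : 0 < a.y := by
  rcases a.nrm with h1 | ⟨h1, h2⟩
  · exact h1
  · exact absurd (Cusp.ext h2 h1) h

/-- the coordinate -/
noncomputable def tc (h : SLZ) (a : Cusp) : ℝ := ((h⁻¹ • a).x : ℝ) / ((h⁻¹ • a).y : ℝ)

theorem ne_iff {h : SLZ} {a : Cusp} : a ≠ h • infty ↔ h⁻¹ • a ≠ infty := by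
  rw [Ne, Ne, inv_smul_eq_iff]

theorem yR_pos {h : SLZ} {a : Cusp} (ha : a ≠ h • infty) : (0 : ℝ) < ((h⁻¹ • a).y : ℝ) := by
  exact_mod_cast y_pos (ne_iff.1 ha)

theorem x_eq {h : SLZ} {a : Cusp} (ha : a ≠ h • infty) :
    ((h⁻¹ • a).x : ℝ) = tc h a * ((h⁻¹ • a).y : ℝ) := by
  unfold tc
  rw [div_mul_cancel₀ _ (yR_pos ha).ne']

/-- the translation length -/
noncomputable def tl (h δ : SLZ) : ℝ := (((h⁻¹ * δ * h).1 0 1 * (h⁻¹ * δ * h).1 1 1 : ℤ) : ℝ)

theorem lower {g : SLZ} (hg : g • infty = infty) : g.1 1 0 = 0 := by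
  have := smul_y g infty
  rw [hg] at this
  simp [infty] at this
  exact this.symm

theorem diag {g : SLZ} (hg : g • infty = infty) :
    g.1 0 0 = g.1 1 1 ∧ g.1 1 1 * g.1 1 1 = 1 := by
  have h1 := det_eq g
  rw [lower hg, mul_zero, sub_zero] at h1
  rcases Int.eq_one_or_neg_one_of_mul_eq_one h1 with h2 | h2
  · rw [h2, one_mul] at h1
    rw [h2, h1]; norm_num
  · rw [h2] at h1
    have : g.1 1 1 = -1 := by linarith
    rw [h2, this]; norm_num

theorem conj_fix {h δ : SLZ} (hδ : δ • h • infty = h • infty) :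
    (h⁻¹ * δ * h) • infty = infty := by
  rw [mul_smul, mul_smul, hδ, inv_smul_smul]

theorem tc_aux (X Y m : ℝ) (hY : Y ≠ 0) {e s : ℤ} (he : e = 1 ∨ e = -1) (hs : s = 1 ∨ s = -1) :
    ((e : ℝ) * ((s : ℝ) * X + m * Y)) / ((e : ℝ) * (0 * X + (s : ℝ) * Y)) = X / Y + m * s := by
  have he' : (e : ℝ) ≠ 0 := by rcases he with rfl | rfl <;> norm_num
  have hs' : (s : ℝ) ≠ 0 := by rcases hs with rfl | rfl <;> norm_num
  have hs2 : (s : ℝ) * s = 1 := by rcases hs with rfl | rfl <;> norm_num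
  rw [zero_mul, zero_add, mul_div_mul_left _ _ he', div_eq_iff (mul_ne_zero hs' hY)]
  have : (X / Y + m * s) * (s * Y) = s * (X / Y * Y) + m * Y * (s * s) := by ring
  rw [this, div_mul_cancel₀ _ hY, hs2, mul_one]

theorem tc_smul {h δ : SLZ} (hδ : δ • h • infty = h • infty) {a : Cusp} (ha : a ≠ h • infty) :
    tc h (δ • a) = tc h a + tl h δ := by
  have hg := conj_fix hδ
  set g := h⁻¹ * δ * h with hgd
  have h1 : h⁻¹ • δ • a = g • h⁻¹ • a := by
    rw [hgd, mul_smul, mul_smul, smul_inv_smul]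
  obtain ⟨h2, h3⟩ := diag hg
  have h4 := lower hg
  have hy := yR_pos ha
  unfold tc tl
  rw [h1, smul_x' g (h⁻¹ • a), smul_y' g (h⁻¹ • a), ← hgd, h4, h2]
  have e1 := tc_aux ((h⁻¹ • a).x : ℝ) ((h⁻¹ • a).y : ℝ) ((g.1 0 1 : ℤ) : ℝ) hy.ne'
    (eps_or g (h⁻¹ • a)) (Int.eq_one_or_neg_one_of_mul_eq_one h3)
  simp only [Int.cast_mul, Int.cast_add, Int.cast_zero]
  exact e1

theorem smul_ne {h δ : SLZ} (hδ : δ • h • infty = h • infty) {a : Cusp} (ha : a ≠ h • infty) :
    δ • a ≠ h • infty := by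
  intro h1
  apply ha
  rw [← hδ] at h1
  exact smul_left_cancel _ h1

/-! ### Forms in coordinates -/

noncomputable def xB (h : SLZ) (B : Form) : ℝ := -(Form.act h⁻¹ B).q / (Form.act h⁻¹ B).p

noncomputable def YB (h : SLZ) (B : Form) : ℝ :=
  (Form.act h⁻¹ B).r / (Form.act h⁻¹ B).p - ((Form.act h⁻¹ B).q / (Form.act h⁻¹ B).p) ^ 2

theorem ev_coord {h : SLZ} {B : Form} (hp : 0 < (Form.act h⁻¹ B).p) {a b : Cusp}
    (hab : ¬ (a = h • infty ∧ b = h • infty)) :
    ∃ u : ℝ, 0 < u ∧ (Form.act h⁻¹ B).ev (h⁻¹ • a) (h⁻¹ • b) =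
      u * sg (h • infty) (tc h) (xB h B) (YB h B) (a, b) := by
  set A := Form.act h⁻¹ B with hA
  have hi : h⁻¹ • h • infty = infty := inv_smul_smul _ _
  by_cases ha : a = h • infty
  · have hb : b ≠ h • infty := fun hb => hab ⟨ha, hb⟩
    rw [sg_left (s := (a, b)) ha]
    refine ⟨A.p * ((h⁻¹ • b).y : ℝ), mul_pos hp (yR_pos hb), ?_⟩
    unfold Form.ev xB
    rw [ha, hi, ← hA, x_eq hb]
    simp only [infty]
    push_cast
    field_simp
    ring
  by_cases hb : b = h • infty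
  · rw [sg_right (s := (a, b)) ha hb]
    refine ⟨A.p * ((h⁻¹ • a).y : ℝ), mul_pos hp (yR_pos ha), ?_⟩
    unfold Form.ev xB
    rw [hb, hi, ← hA, x_eq ha]
    simp only [infty]
    push_cast
    field_simp
    ring
  · rw [sg_gen (s := (a, b)) ha hb]
    refine ⟨A.p * ((h⁻¹ • a).y : ℝ) * ((h⁻¹ • b).y : ℝ),
      mul_pos (mul_pos hp (yR_pos ha)) (yR_pos hb), ?_⟩
    unfold Form.ev xB YB
    rw [← hA, x_eq ha, x_eq hb]
    field_simp
    ring

theorem sep_eq (hF : FormaStatement) (G : Subgroup SLZ) (e : Option (Cusp × Cusp)) {h : SLZ}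
    {B B' : Form} (hp : 0 < (Form.act h⁻¹ B).p) (hp' : 0 < (Form.act h⁻¹ B').p)
    (hcc : ¬ Ge G e (h • infty) (h • infty)) :
    Sep G e B B' = SS (h • infty) (tc h) (Ge G e) (xB h B) (YB h B) (xB h B') (YB h B') := by
  ext ⟨a, b⟩
  simp only [Sep, SS, Set.mem_ofPred_eq]
  refine and_congr_right fun hE => ?_
  have hab : ¬ (a = h • infty ∧ b = h • infty) := by
    rintro ⟨rfl, rfl⟩; exact hcc hE
  obtain ⟨u, hu, e1⟩ := ev_coord hp hab
  obtain ⟨u', hu', e2⟩ := ev_coord hp' hab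
  rw [hF.1] at e1 e2
  have h1 : ((eps h⁻¹ a * eps h⁻¹ b : ℤ) : ℝ) ^ 2 = 1 := by
    rcases eps_or h⁻¹ a with h1 | h1 <;> rcases eps_or h⁻¹ b with h2 | h2 <;> rw [h1, h2] <;> norm_num
  have h2 : B.ev a b * B'.ev a b = (u * u') * (sg (h • infty) (tc h) (xB h B) (YB h B) (a, b) *
      sg (h • infty) (tc h) (xB h B') (YB h B') (a, b)) := by
    have : B.ev a b * B'.ev a b = ((eps h⁻¹ a * eps h⁻¹ b : ℤ) : ℝ) ^ 2 *
      (B.ev a b * B'.ev a b) := by rw [h1, one_mul]
    rw [this]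
    have : ((eps h⁻¹ a * eps h⁻¹ b : ℤ) : ℝ) ^ 2 * (B.ev a b * B'.ev a b) =
      (((eps h⁻¹ a * eps h⁻¹ b : ℤ) : ℝ) * B.ev a b) *
      (((eps h⁻¹ a * eps h⁻¹ b : ℤ) : ℝ) * B'.ev a b) := by ring
    rw [this, e1, e2]; ring
  rw [h2]
  have hpos : 0 < u * u' := mul_pos hu hu'
  constructor
  · intro h3
    by_contra hh; push Not at hh
    exact absurd h3 (not_lt.2 (mul_nonneg hpos.le hh))
  · intro h3
    exact mul_neg_of_pos_of_neg hpos h3

/-- the action of an element fixing the cusp in coordinates -/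
theorem act_coord (hF : FormaStatement) {h δ : SLZ} (hδ : δ • h • infty = h • infty) {B : Form}
    (hp : 0 < (Form.act h⁻¹ B).p) :
    0 < (Form.act h⁻¹ (Form.act δ B)).p ∧ xB h (Form.act δ B) = xB h B + tl h δ ∧
      YB h (Form.act δ B) = YB h B := by
  have e1 : Form.act h⁻¹ (Form.act δ B) = Form.act (h⁻¹ * δ * h) (Form.act h⁻¹ B) := by
    rw [hF.2.1, hF.2.1]; congr 1; group
  have hg := conj_fix hδ
  obtain ⟨h2, h3⟩ := diag hg
  have h4 := lower hg
  unfold xB YB tl
  rw [e1]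
  set g := h⁻¹ * δ * h
  generalize Form.act h⁻¹ B = A at *
  have e5 : (Form.act g A).p = A.p := by
    simp only [Form.act, h4]
    have : ((g.1 1 1 : ℤ) : ℝ) ^ 2 = 1 := by exact_mod_cast (by rw [sq]; exact h3)
    push_cast
    rw [this]; ring
  have e6 : (Form.act g A).q = A.q - A.p * ((g.1 0 1 * g.1 1 1 : ℤ) : ℝ) := by
    simp only [Form.act, h4, h2]
    have : ((g.1 1 1 : ℤ) : ℝ) * ((g.1 1 1 : ℤ) : ℝ) = 1 := by exact_mod_cast h3
    push_cast
    linear_combination A.q * this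
  have e7 : (Form.act g A).r = A.r - 2 * A.q * ((g.1 0 1 * g.1 1 1 : ℤ) : ℝ) +
      A.p * ((g.1 0 1 * g.1 1 1 : ℤ) : ℝ) ^ 2 := by
    simp only [Form.act, h2]
    have : ((g.1 1 1 : ℤ) : ℝ) * ((g.1 1 1 : ℤ) : ℝ) = 1 := by exact_mod_cast h3
    push_cast
    linear_combination (A.r - A.p * ((g.1 0 1 : ℤ) : ℝ) ^ 2) * this
  rw [e5, e6, e7]
  refine ⟨hp, ?_, ?_⟩
  · field_simp; ring
  · field_simp; ring

/-! ### Assembly -/

theorem tc_zpow {h δ : SLZ} (hδ : δ • h • infty = h • infty) (k : ℤ) :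
    (δ ^ k) • h • infty = h • infty ∧ ∀ a, a ≠ h • infty →
      tc h (δ ^ k • a) = tc h a + k * tl h δ := by
  induction k using Int.induction_on with
  | zero => simp
  | succ k ih =>
    refine ⟨by rw [_root_.zpow_add_one, mul_smul, hδ, ih.1], fun a ha => ?_⟩
    rw [_root_.zpow_add_one, mul_smul, ih.2 _ (smul_ne hδ ha), tc_smul hδ ha]
    push_cast; ring
  | pred k ih =>
    have hi : δ⁻¹ • h • infty = h • infty := by rw [inv_smul_eq_iff, hδ]
    refine ⟨by rw [_root_.zpow_sub_one, mul_smul, hi, ih.1], fun a ha => ?_⟩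
    have h1 := tc_smul hδ (smul_ne hi ha)
    rw [smul_inv_smul] at h1
    rw [_root_.zpow_sub_one, mul_smul, ih.2 _ (smul_ne hi ha)]
    push_cast
    linarith

theorem tl_inv {h δ : SLZ} (hδ : δ • h • infty = h • infty) : tl h δ⁻¹ = - tl h δ := by
  have hi : δ⁻¹ • h • infty = h • infty := by rw [inv_smul_eq_iff, hδ]
  have hz : h • zero ≠ h • infty := by
    intro hh
    have := smul_left_cancel _ hh
    have := congrArg Cusp.x this
    simp [zero, infty] at this
  have h1 := tc_smul hδ (smul_ne hi hz)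
  rw [smul_inv_smul, tc_smul hi hz] at h1
  linarith

theorem sameArc_inv {G : Subgroup SLZ} {a b c d : Cusp} {g : SLZ} (hg : g ∈ G)
    (h : SameArc G a b c d) : SameArc G a b (g • c) (g • d) := by
  obtain ⟨k, hk, h | h⟩ := h
  · exact ⟨g * k, G.mul_mem hg hk, Or.inl ⟨by rw [mul_smul, h.1], by rw [mul_smul, h.2]⟩⟩
  · exact ⟨g * k, G.mul_mem hg hk, Or.inr ⟨by rw [mul_smul, h.1], by rw [mul_smul, h.2]⟩⟩

theorem sameArc_symm {G : Subgroup SLZ} {a b c d : Cusp}
    (h : SameArc G a b c d) : SameArc G a b d c := by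
  obtain ⟨k, hk, h | h⟩ := h
  · exact ⟨k, hk, Or.inr h⟩
  · exact ⟨k, hk, Or.inl h⟩

theorem dt_par (c a : Cusp) (w : ℤ) : dt a (par c w • a) = -(eps (par c w) a * w * dt c a ^ 2) := by
  unfold dt
  rw [smul_x' (par c w) a, smul_y' (par c w) a]
  simp only [par, Matrix.of_apply, Matrix.cons_val', Matrix.cons_val_zero, Matrix.cons_val_one,
    Matrix.cons_val_fin_one]
  ring

theorem tc_inj {h : SLZ} {a b : Cusp} (ha : a ≠ h • infty) (hb : b ≠ h • infty)
    (hab : tc h a = tc h b) : a = b := by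
  have h1 : (dt (h⁻¹ • a) (h⁻¹ • b) : ℝ) = 0 := by
    unfold dt; push_cast; rw [x_eq ha, x_eq hb, hab]; ring
  have h2 : dt (h⁻¹ • a) (h⁻¹ • b) = 0 := by exact_mod_cast h1
  exact smul_left_cancel _ (dt_eq_zero.1 h2)

theorem pushc (h1 : TransStatement) (h2 : StabStatement) (h3 : FormaStatement)
    (h4 : ToolStatement) : PushcStatement := by
  intro G hG e he B B' hB hB' hfin c d hcd hneg γ hγ hγc hgen
  obtain ⟨h, rfl⟩ := h1.1 c
  -- basic facts on `Ge`
  have Ginv : ∀ g ∈ G, ∀ a b, Ge G e a b → Ge G e (g • a) (g • b) := by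
    rintro g hg a b ⟨p, hp, hs⟩
    exact ⟨p, hp, sameArc_inv hg hs⟩
  have Gsymm : ∀ a b, Ge G e a b → Ge G e b a := by
    rintro a b ⟨p, hp, hs⟩
    exact ⟨p, hp, sameArc_symm hs⟩
  have Gne : ∀ a, ¬ Ge G e a a := by
    rintro a ⟨p, hp, g, hg, hh⟩
    have h5 := (he p hp).1.1
    apply h5
    rcases hh with ⟨e1, e2⟩ | ⟨e1, e2⟩
    · exact smul_left_cancel g (e1.trans e2.symm)
    · exact smul_left_cancel g (e1.trans e2.symm)
  have hdc : d ≠ h • infty := by
    rintro rfl; exact Gne _ hcd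
  -- verticals
  have vert : ∀ a, Ge G e (h • infty) a → ∃ k : ℤ, a = γ ^ k • d := by
    rintro a ⟨p, hp, g, hg, hh⟩
    obtain ⟨p', hp', g', hg', hh'⟩ := hcd
    have hpp : p' = p := by rw [hp'] at hp; exact Option.some_injective _ hp
    subst hpp
    have hadm := (he p' hp').2
    have key : ∀ u v : Cusp, g • u = h • infty → g • v = a → g' • u = h • infty → g' • v = d →
        ∃ k : ℤ, a = γ ^ k • d := by
      intro u v e1 e2 e3 e4
      have e5 : (g * g'⁻¹) • h • infty = h • infty := by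
        rw [← e3, mul_smul, inv_smul_smul, e1, e3]
      obtain ⟨k, hk⟩ := hgen _ (G.mul_mem hg (G.inv_mem hg')) e5
      refine ⟨k, ?_⟩
      have e6 : a = (g * g'⁻¹) • d := by
        rw [← e4, mul_smul, inv_smul_smul, e2]
      rw [e6]
      rcases hk with hk | hk
      · rw [hk]
      · rw [hk, neg_smul']
    rcases hh with ⟨e1, e2⟩ | ⟨e1, e2⟩ <;> rcases hh' with ⟨e3, e4⟩ | ⟨e3, e4⟩
    · exact key _ _ e1 e2 e3 e4
    · exfalso
      apply hadm (g'⁻¹ * g) (G.mul_mem (G.inv_mem hg') hg)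
      rw [mul_smul, e1, ← e4, inv_smul_smul]
    · exfalso
      apply hadm (g⁻¹ * g') (G.mul_mem (G.inv_mem hg) hg')
      rw [mul_smul, e3, ← e2, inv_smul_smul]
    · exact key _ _ e2 e1 e4 e3
  -- non-crossing in coordinates
  have hnc : ∀ a b v, a ≠ h • infty → b ≠ h • infty → v ≠ h • infty → Ge G e a b →
      Ge G e (h • infty) v → 0 ≤ (tc h a - tc h v) * (tc h b - tc h v) := by
    intro a b v ha hb hv hab hcv
    have h5 := (h4 G hG e he).2.2.1 _ _ hcv _ _ hab
    rw [← cross_smul h⁻¹, inv_smul_smul] at h5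
    unfold Cross at h5
    push Not at h5
    have e1 : (dt infty (h⁻¹ • a) : ℝ) = ((h⁻¹ • a).y : ℝ) := by
      unfold dt; simp [infty]
    have e2 : (dt infty (h⁻¹ • b) : ℝ) = ((h⁻¹ • b).y : ℝ) := by
      unfold dt; simp [infty]
    have e3 : (dt (h⁻¹ • v) (h⁻¹ • a) : ℝ) =
        ((h⁻¹ • v).y : ℝ) * ((h⁻¹ • a).y : ℝ) * (tc h v - tc h a) := by
      unfold dt; push_cast; rw [x_eq ha, x_eq hv]; ring
    have e4 : (dt (h⁻¹ • v) (h⁻¹ • b) : ℝ) =
        ((h⁻¹ • v).y : ℝ) * ((h⁻¹ • b).y : ℝ) * (tc h v - tc h b) := by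
      unfold dt; push_cast; rw [x_eq hb, x_eq hv]; ring
    have h6 : (0 : ℝ) ≤ ((dt infty (h⁻¹ • a) : ℝ) * (dt (h⁻¹ • v) (h⁻¹ • a) : ℝ)) *
        ((dt infty (h⁻¹ • b) : ℝ) * (dt (h⁻¹ • v) (h⁻¹ • b) : ℝ)) := by exact_mod_cast h5
    rw [e1, e2, e3, e4] at h6
    have pa := yR_pos ha
    have pb := yR_pos hb
    have pv := yR_pos hv
    have h7 : ((h⁻¹ • a).y : ℝ) * (((h⁻¹ • v).y : ℝ) * ((h⁻¹ • a).y : ℝ) * (tc h v - tc h a)) *
        (((h⁻¹ • b).y : ℝ) * (((h⁻¹ • v).y : ℝ) * ((h⁻¹ • b).y : ℝ) * (tc h v - tc h b))) =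
        (((h⁻¹ • a).y : ℝ) * ((h⁻¹ • b).y : ℝ) * ((h⁻¹ • v).y : ℝ)) ^ 2 *
        ((tc h a - tc h v) * (tc h b - tc h v)) := by ring
    rw [h7] at h6
    exact nonneg_of_mul_nonneg_right h6 (by positivity)
  -- the forms in coordinates
  have hpos : ∀ A : Form, A.Psd → A.ev (h • infty) d ≠ 0 → 0 < (Form.act h⁻¹ A).p := by
    intro A hA hne
    have hA' := h3.2.2.1 h⁻¹ A hA
    have e1 := h3.1 h⁻¹ A (h • infty) d
    rw [inv_smul_smul] at e1
    have h5 : (Form.act h⁻¹ A).ev infty (h⁻¹ • d) ≠ 0 := by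
      rw [e1]
      refine mul_ne_zero ?_ hne
      exact_mod_cast mul_ne_zero (eps_ne_zero _ _) (eps_ne_zero _ _)
    rcases lt_or_eq_of_le hA'.1 with h6 | h6
    · exact h6
    · exfalso
      apply h5
      have h7 : (Form.act h⁻¹ A).q = 0 := by
        have := hA'.2.2.1
        rw [← h6, zero_mul] at this
        exact pow_eq_zero_iff (two_ne_zero) |>.1 (le_antisymm this (sq_nonneg _))
      unfold Form.ev
      rw [← h6, h7]
      simp [infty]
  have hp : 0 < (Form.act h⁻¹ B).p := hpos B hB (fun hh => by rw [hh] at hneg; simp at hneg)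
  have hp' : 0 < (Form.act h⁻¹ B').p := hpos B' hB' (fun hh => by rw [hh] at hneg; simp at hneg)
  have YBnn : ∀ A : Form, A.Psd → 0 < (Form.act h⁻¹ A).p → 0 ≤ YB h A := by
    intro A hA hpA
    have hA' := (h3.2.2.1 h⁻¹ A hA).2.2.1
    unfold YB
    rw [sub_nonneg, div_pow, div_le_div_iff₀ (by positivity) hpA]
    nlinarith
  have hS := sep_eq h3 G e hp hp' (Gne _)
  -- the translation length is not zero
  have hn0 : tl h γ ≠ 0 := by
    intro h0
    obtain ⟨hw, hpar, -⟩ := h2 G hG (h • infty)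
    have hpc : par (h • infty) (width G (h • infty)) • h • infty = h • infty := by
      have := dt_par (h • infty) (h • infty) (width G (h • infty))
      rw [dt_self] at this
      exact (dt_eq_zero.1 (by rw [this]; ring)).symm
    have key : ∃ k : ℤ, ∀ a : Cusp, par (h • infty) (width G (h • infty)) • a = γ ^ k • a := by
      rcases hpar with hg | hg
      · obtain ⟨k, hk | hk⟩ := hgen _ hg hpc
        · exact ⟨k, fun a => by rw [hk]⟩
        · exact ⟨k, fun a => by rw [hk, neg_smul']⟩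
      · obtain ⟨k, hk | hk⟩ := hgen _ hg (by rw [neg_smul']; exact hpc)
        · exact ⟨k, fun a => by rw [← hk, neg_smul']⟩
        · exact ⟨k, fun a => by rw [neg_inj.1 hk]⟩
    obtain ⟨k, hk⟩ := key
    have hz := tc_zpow hγc k
    have e1 : γ ^ k • d = d := by
      refine tc_inj (smul_ne hz.1 hdc) hdc ?_
      rw [hz.2 d hdc, h0, mul_zero, add_zero]
    have e2 := dt_par (h • infty) d (width G (h • infty))
    rw [hk, e1, dt_self] at e2
    have e3 : dt (h • infty) d ≠ 0 := dt_ne_zero hdc.symm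
    have e4 : (width G (h • infty) : ℤ) ≠ 0 := by exact_mod_cast hw.ne'
    have e5 : eps (par (h • infty) (width G (h • infty))) d * (width G (h • infty) : ℤ) *
        dt (h • infty) d ^ 2 ≠ 0 := mul_ne_zero (mul_ne_zero (eps_ne_zero _ _) e4) (pow_ne_zero _ e3)
    exact e5 (by linarith)
  have hdS : (tc h d - xB h B) * (tc h d - xB h B') < 0 := by
    have h5 : (h • infty, d) ∈ Sep G e B B' := ⟨hcd, hneg⟩
    rw [hS] at h5
    have := h5.2
    rwa [sg_left (s := (h • infty, d)) rfl, sg_left (s := (h • infty, d)) rfl] at this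
  have main : ∀ δ : SLZ, (δ = γ ∨ δ = γ⁻¹) → (δ⁻¹ = γ ∨ δ⁻¹ = γ⁻¹) → 0 < tl h δ →
      ∃ γ' : SLZ, (γ' = γ ∨ γ' = γ⁻¹) ∧ (Sep G e B (Form.act γ' B')).Finite ∧
      (Sep G e B (Form.act γ' B')).ncard < (Sep G e B B').ncard := by
    intro δ hδ hδ' hn
    have hδG : δ ∈ G := by
      rcases hδ with rfl | rfl
      · exact hγ
      · exact G.inv_mem hγ
    have hγi : γ⁻¹ • h • infty = h • infty := by rw [inv_smul_eq_iff, hγc]
    have hδc : δ • h • infty = h • infty := by
      rcases hδ with rfl | rfl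
      · exact hγc
      · exact hγi
    have hδi : δ⁻¹ • h • infty = h • infty := by rw [inv_smul_eq_iff, hδc]
    have hv : ∀ a, Ge G e (h • infty) a → ∃ k : ℤ, tc h a = tc h d + k * tl h δ := by
      intro a ha
      obtain ⟨k, rfl⟩ := vert a ha
      rcases hδ with rfl | rfl
      · exact ⟨k, (tc_zpow hγc k).2 d hdc⟩
      · refine ⟨-k, ?_⟩
        rw [(tc_zpow hγc k).2 d hdc, tl_inv hγc]; push_cast; ring
    have hvd : ∀ k : ℤ, ∃ v, v ≠ h • infty ∧ Ge G e (h • infty) v ∧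
        tc h v = tc h d + k * tl h δ := by
      intro k
      have hz := tc_zpow hδc k
      refine ⟨δ ^ k • d, smul_ne hz.1 hdc, ?_, hz.2 d hdc⟩
      have := Ginv _ (G.zpow_mem hδG k) _ _ hcd
      rwa [hz.1] at this
    rcases lt_or_gt_of_ne (show tc h d - xB h B ≠ 0 from fun hh => by
      rw [hh, zero_mul] at hdS; exact lt_irrefl _ hdS) with h5 | h5
    · -- `x' < t d < x`
      have h6 : 0 < tc h d - xB h B' := by
        by_contra hh; push Not at hh
        exact absurd hdS (not_lt.2 (mul_nonneg_of_nonpos_of_nonpos h5.le hh))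
      have hc := core (h • infty) d (fun a => - tc h a) (Ge G e) (MulAction.toPerm δ⁻¹) (tl h δ) hn
        hδi (fun a ha => by
          show - tc h (δ⁻¹ • a) = - tc h a + tl h δ
          rw [tc_smul hδi ha, tl_inv hδc]; ring)
        (fun a b hab => Ginv _ (G.inv_mem hδG) _ _ hab) Gsymm
        (fun a ha => by
          obtain ⟨k, hk⟩ := hv a ha
          exact ⟨-k, by rw [hk]; push_cast; ring⟩)
        (fun k => by
          obtain ⟨v, hv1, hv2, hv3⟩ := hvd (-k)
          exact ⟨v, hv1, hv2, by rw [hv3]; push_cast; ring⟩)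
        (Gne _)
        (fun a b v ha hb hvv hab hcv => by
          have := hnc a b v ha hb hvv hab hcv
          have e : (-tc h a - -tc h v) * (-tc h b - -tc h v) =
            (tc h a - tc h v) * (tc h b - tc h v) := by ring
          rw [e]; exact this)
        hdc hcd (-xB h B) (-xB h B') (YB h B) (YB h B') (YBnn B hB hp) (YBnn B' hB' hp')
        (by linarith) (by linarith) (by rw [SS_neg, ← hS]; exact hfin)
      obtain ⟨a1, a2, a3⟩ := act_coord h3 hδc hp'
      have hS' := sep_eq h3 G e hp a1 (Gne _)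
      rw [a2, a3] at hS'
      have e : -xB h B' - tl h δ = -(xB h B' + tl h δ) := by ring
      rw [e, SS_neg, SS_neg, ← hS', ← hS] at hc
      exact ⟨δ, hδ, hc⟩
    · -- `x < t d < x'`
      have h6 : tc h d - xB h B' < 0 := by
        by_contra hh; push Not at hh
        exact absurd hdS (not_lt.2 (mul_nonneg h5.le hh))
      have hc := core (h • infty) d (tc h) (Ge G e) (MulAction.toPerm δ) (tl h δ) hn
        hδc (fun a ha => tc_smul hδc ha)
        (fun a b hab => Ginv _ hδG _ _ hab) Gsymm hv hvd (Gne _) hnc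
        hdc hcd (xB h B) (xB h B') (YB h B) (YB h B') (YBnn B hB hp) (YBnn B' hB' hp')
        (by linarith) (by linarith) (by rw [← hS]; exact hfin)
      obtain ⟨a1, a2, a3⟩ := act_coord h3 hδi hp'
      have hS' := sep_eq h3 G e hp a1 (Gne _)
      rw [a2, a3, tl_inv hδc] at hS'
      have e : xB h B' - tl h δ = xB h B' + -tl h δ := by ring
      rw [e, ← hS', ← hS] at hc
      exact ⟨δ⁻¹, hδ', hc⟩
  rcases lt_or_gt_of_ne hn0 with h5 | h5
  · exact main γ⁻¹ (Or.inr rfl) (Or.inl (inv_inv γ)) (by rw [tl_inv hγc]; linarith)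
  · exact main γ (Or.inl rfl) (Or.inr rfl) h5

end Pool.Agent.Lib.MP_eee7a8_ag.TB.C93
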